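import Mathlib
import Pool.Agent.Q277.Ram28k3PI

/-!
# Sign and integrality of the normalised `(28k+3)` sums with ratio `-12288`
-/

namespace Pool.Agent.Results.MP_14414a_nt.Integrality

open Finset Q277.Ram28k3 Q277.FacTools Q277.RamTwo Q266.PInt

/-- the rational number `a_n` of the problem -/
def a (n : ℕ) : ℚ :=
  1 / (2 * (n : ℚ) * (2 * n + 1) * ((2 * n).choose n : ℚ)) *
    ∑ k ∈ range n, (28 * (k : ℚ) + 3) * (((4 * k).factorial : ℚ) / (k.factorial : ℚ) ^ 4) *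
      (-12288) ^ (n - 1 - k)

theorem a_eq_a (n : ℕ) : a n = ∑ k ∈ range (2 * n),
    1 / (2 * (n : ℚ) * (2 * n + 1) * ((2 * n).choose n : ℚ)) * Ga n k := by
  unfold a
  rw [← mul_sum, sum_a]
  congr 1
  refine sum_congr rfl fun k _ => ?_
  rw [Fa_zero]; ring

theorem a_eq_b (n : ℕ) : a n = ∑ k ∈ range n,
    1 / (2 * (n : ℚ) * (2 * n + 1) * ((2 * n).choose n : ℚ)) * Gb n k := by
  unfold a
  rw [← mul_sum, sum_b]
  congr 1
  refine sum_congr rfl fun k _ => ?_
  rw [Fb_zero]; ring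

theorem choose_four (k : ℕ) : (((4 * k).factorial : ℚ) / (k.factorial : ℚ) ^ 4)
    = ((2 * k).choose k : ℚ) * (((2 * k).choose k * (2 * (2 * k)).choose (2 * k) : ℕ) : ℚ) := by
  push_cast
  rw [choose_two, choose_two, show 2 * (2 * k) = 4 * k by ring]
  have a1 := fne k
  have a2 := fne (2 * k)
  field_simp

theorem a_two (m : ℕ) (hm : 1 ≤ m) : PI 2 (a (m + 1)) := by
  have hp := Nat.prime_two
  obtain ⟨u, hu⟩ := even_c m hm
  obtain ⟨w, hw⟩ := even_c (2 * m) (by omega)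
  have h := sum_PI 4 (by norm_num) (-1536) (fun k => (28 * k + 3) * ((2 * k).choose k *
    (2 * (2 * k)).choose (2 * k))) m ⟨(28 * m + 3) * (u * w), by
      show (28 * m + 3) * ((2 * m).choose m * (2 * (2 * m)).choose (2 * m)) = _
      rw [hu, hw]; ring⟩
  have e : a (m + 1) = ((∑ k ∈ range (m + 1), ((2 * (4 : ℕ) * (-1536) : ℤ) : ℚ) ^ (m - k) *
      (((2 * k).choose k : ℚ) * (((28 * k + 3) * ((2 * k).choose k *
        (2 * (2 * k)).choose (2 * k)) : ℕ) : ℚ))) /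
      ((4 : ℕ) * ((2 * m).choose m : ℚ))) * (1 / (2 * (m : ℚ) + 1)) *
        (1 / (2 * ((m + 1 : ℕ) : ℚ) + 1)) := by
    have hs : (∑ k ∈ range (m + 1), ((2 * (4 : ℕ) * (-1536) : ℤ) : ℚ) ^ (m - k) *
        (((2 * k).choose k : ℚ) * (((28 * k + 3) * ((2 * k).choose k *
        (2 * (2 * k)).choose (2 * k)) : ℕ) : ℚ)))
        = ∑ k ∈ range (m + 1), (28 * (k : ℚ) + 3) *
          (((4 * k).factorial : ℚ) / (k.factorial : ℚ) ^ 4) * (-12288) ^ (m + 1 - 1 - k) := by
      refine sum_congr rfl fun k _ => ?_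
      rw [show m + 1 - 1 - k = m - k by omega, choose_four]
      push_cast
      ring
    rw [hs]
    unfold a
    generalize (∑ k ∈ range (m + 1), (28 * (k : ℚ) + 3) *
          (((4 * k).factorial : ℚ) / (k.factorial : ℚ) ^ 4) * (-12288) ^ (m + 1 - 1 - k)) = x
    have h2 := cstep m
    have c1 := cne m
    have c2 := cne (m + 1)
    generalize ((2 * (m + 1)).choose (m + 1) : ℚ) = y at *
    generalize ((2 * m).choose m : ℚ) = z at *
    push_cast
    have b1 : (m : ℚ) + 1 ≠ 0 := by positivity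
    have b2 : 2 * (m : ℚ) + 1 ≠ 0 := by positivity
    have b3 : 2 * ((m : ℚ) + 1) + 1 ≠ 0 := by positivity
    have hy : y = 2 * (2 * m + 1) * z / (m + 1) := by
      rw [eq_div_iff b1]; linear_combination h2
    rw [hy]
    field_simp
    norm_num
    ring
  rw [e]
  exact (h.mul hp (odd_inv m)).mul hp (odd_inv (m + 1))

theorem a_int (n : ℕ) (hn : 2 ≤ n) : ∃ z : ℤ, a n = z := by
  refine int_of_PI fun p hp => ?_
  rcases (by have := hp.two_le; omega : p = 2 ∨ p = 3 ∨ p = 4 ∨ 5 ≤ p) with rfl | rfl | rfl | h5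
  · obtain ⟨m, rfl⟩ : ∃ m, n = m + 1 := ⟨n - 1, by omega⟩
    exact a_two m (by omega)
  · rw [a_eq_b]
    refine PI.sum hp _ _ fun k hk => ?_
    rcases Nat.eq_zero_or_pos k with rfl | h
    · exact Tb_zero_PI n hn
    · exact Tb_PI n k (mem_range.1 hk) h
  · exact absurd hp (by decide)
  · rw [a_eq_a]
    exact PI.sum hp _ _ fun k hk => Ta_PI p hp h5 n k (mem_range.1 hk)

/-- the alternating sum is positive -/
theorem sum_pos (n : ℕ) : 0 < ∑ k ∈ range (n + 1), (12288 : ℚ) ^ (n - k) *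
    ((-1) ^ k * ((28 * (k : ℚ) + 3) * (((4 * k).factorial : ℚ) / (k.factorial : ℚ) ^ 4))) := by
  refine alt_pos (fun k => (28 * (k : ℚ) + 3) * (((4 * k).factorial : ℚ) / (k.factorial : ℚ) ^ 4))
    (fun n => ∑ k ∈ range n, (12288 : ℚ) ^ (n - 1 - k) *
    ((-1) ^ k * ((28 * (k : ℚ) + 3) * (((4 * k).factorial : ℚ) / (k.factorial : ℚ) ^ 4)))) 12288
    (by norm_num) (fun k => ?_) (fun k => ?_) (by simp) (fun n => ?_) n
  · positivity
  · rw [show 4 * (k + 1) = 4 * k + 4 by ring, f4 (4 * k), f1 k]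
    have a1 : (0 : ℚ) < ((4 * k).factorial : ℚ) := by positivity
    have a3 : (0 : ℚ) < (k.factorial : ℚ) := by positivity
    generalize ((4 * k).factorial : ℚ) = x1 at *
    generalize (k.factorial : ℚ) = x3 at *
    push_cast
    have hk : (0 : ℚ) ≤ k := by positivity
    generalize (k : ℚ) = t at *
    rw [← sub_pos]
    have e : 12288 * ((28 * t + 3) * (x1 / x3 ^ 4)) -
        (28 * (t + 1) + 3) * ((4 * t + 4) * (4 * t + 3) * (4 * t + 2) * (4 * t + 1) * x1 /
          ((t + 1) * x3) ^ 4)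
        = (x1 / x3 ^ 4) * (12288 * (28 * t + 3) * (t + 1) ^ 3 -
          (28 * t + 31) * (8 * (4 * t + 3) * (2 * t + 1) * (4 * t + 1))) / (t + 1) ^ 3 := by
      have b1 : t + 1 ≠ 0 := by positivity
      field_simp
      ring
    rw [e]
    have h5 : 0 < 12288 * (28 * t + 3) * (t + 1) ^ 3 -
          (28 * t + 31) * (8 * (4 * t + 3) * (2 * t + 1) * (4 * t + 1)) := by
      ring_nf
      positivity
    positivity
  · show ∑ k ∈ range (n + 1), _ = 12288 * ∑ k ∈ range n, _ + _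
    rw [sum_range_succ, mul_sum]
    congr 1
    · refine sum_congr rfl fun k hk => ?_
      have := mem_range.1 hk
      rw [show n + 1 - 1 - k = (n - 1 - k) + 1 by omega, pow_succ]
      ring
    · rw [show n + 1 - 1 - n = 0 by omega, pow_zero, one_mul]

theorem a_pos (n : ℕ) : 0 < (-1) ^ n * a (n + 1) := by
  have h := sum_pos n
  have e : (-1) ^ n * a (n + 1) = (1 / (2 * ((n + 1 : ℕ) : ℚ) * (2 * ((n + 1 : ℕ) : ℚ) + 1) *
      ((2 * (n + 1)).choose (n + 1) : ℚ))) * ∑ k ∈ range (n + 1), (12288 : ℚ) ^ (n - k) *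
    ((-1) ^ k * ((28 * (k : ℚ) + 3) * (((4 * k).factorial : ℚ) / (k.factorial : ℚ) ^ 4))) := by
    unfold a
    rw [mul_left_comm]
    congr 1
    rw [mul_sum]
    refine sum_congr rfl fun k hk => ?_
    obtain ⟨j, rfl⟩ : ∃ j, n = k + j := ⟨n - k, by have := mem_range.1 hk; omega⟩
    rw [show k + j + 1 - 1 - k = j by omega, show k + j - k = j by omega,
      show (-12288 : ℚ) = (-1) * 12288 by norm_num, mul_pow, pow_add]
    have h1 : ((-1 : ℚ) ^ j) * (-1) ^ j = 1 := by rw [← mul_pow]; norm_num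
    linear_combination ((-1) ^ k * 12288 ^ j * (28 * (k : ℚ) + 3) *
      (((4 * k).factorial : ℚ) / (k.factorial : ℚ) ^ 4)) * h1
  rw [e]
  refine mul_pos (one_div_pos.2 ?_) h
  have h1 : 0 < (2 * (n + 1)).choose (n + 1) := Nat.choose_pos (by omega)
  positivity

theorem result (n : ℕ) (hn : 2 ≤ n) : ∃ z : ℤ, 0 < z ∧ (-1) ^ (n - 1) * a n = z := by
  obtain ⟨z, hz⟩ := a_int n hn
  obtain ⟨m, rfl⟩ : ∃ m, n = m + 1 := ⟨n - 1, by omega⟩
  have hpos := a_pos m
  rw [hz] at hpos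
  refine ⟨(-1) ^ m * z, by exact_mod_cast hpos, ?_⟩
  rw [hz, Nat.add_sub_cancel]
  push_cast
  ring

end Pool.Agent.Results.MP_14414a_nt.Integrality
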